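import Mathlib
import Pool.Agent.helper17.Cherry
import Pool.Agent.helper17.TreeCut

set_option autoImplicit false

/-!
# The sim-width of the line graph of a complete graph

We determine `simw (L(K_n))` for every `n`: it is `0` for `n ≤ 2` and `⌊(n+2)/4⌋ = ⌈(n-1)/4⌉`
for `n ≥ 3`.
-/

namespace Pool.Agent.Results.MP_598d44_co.SimWidthExact

open SimpleGraph

/-- `simval G A`: the largest number of edges of an induced matching `M` of `G` all of whose edges
have one end in `A` and the other end outside `A`. -/
noncomputable def simval {V : Type*} (G : SimpleGraph V) (A : Set V) : ℕ :=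
  sSup {k | ∃ M : G.Subgraph, M.IsMatching ∧ M.IsInduced ∧
    (∀ v w, M.Adj v w → (v ∈ A ↔ w ∉ A)) ∧ M.edgeSet.ncard = k}

/-- A branch decomposition with set of leaves `V`: a finite tree `T` all of whose vertices are
leaves (degree at most `1`; degree `0` occurs only for the one-vertex tree) or have degree `3`,
together with a bijection from `V` onto the set of leaves of `T`. -/
structure BranchDecomposition (V : Type*) where
  /-- vertex set of the tree -/
  W : Type
  finite : Finite W
  /-- the tree -/
  T : SimpleGraph W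
  isTree : T.IsTree
  degree_eq : ∀ x, (T.neighborSet x).ncard ≤ 1 ∨ (T.neighborSet x).ncard = 3
  /-- the bijection from `V` to the leaves -/
  leaf : V → W
  leaf_injective : Function.Injective leaf
  range_leaf : Set.range leaf = {x | (T.neighborSet x).ncard ≤ 1}

namespace BranchDecomposition

variable {V : Type*}

/-- The side of `x` of the tree edge `xy`: all `v` whose leaf lies in the component of `x`
of the tree with the edge `xy` deleted. -/
def side (D : BranchDecomposition V) (x y : D.W) : Set V :=
  {v | (D.T.deleteEdges {s(x, y)}).Reachable x (D.leaf v)}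

/-- The sim-width of a branch decomposition: the maximum of `simval` over all tree edges. -/
noncomputable def width (D : BranchDecomposition V) (G : SimpleGraph V) : ℕ :=
  sSup {k | ∃ x y, D.T.Adj x y ∧ simval G (D.side x y) = k}

end BranchDecomposition

/-- The sim-width of `G`: the minimum width of a branch decomposition. -/
noncomputable def simWidth {V : Type*} (G : SimpleGraph V) : ℕ :=
  sInf {k | ∃ D : BranchDecomposition V, D.width G = k}

/-! ### General facts on `simval` -/

section General

variable {V : Type*}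

lemma simval_bddAbove [Finite V] (G : SimpleGraph V) (A : Set V) :
    BddAbove {k | ∃ M : G.Subgraph, M.IsMatching ∧ M.IsInduced ∧
      (∀ v w, M.Adj v w → (v ∈ A ↔ w ∉ A)) ∧ M.edgeSet.ncard = k} := by
  refine ⟨G.edgeSet.ncard, ?_⟩
  rintro k ⟨M, -, -, -, rfl⟩
  exact Set.ncard_le_ncard M.edgeSet_subset (Set.toFinite _)

lemma le_simval [Finite V] {G : SimpleGraph V} {A : Set V} (M : G.Subgraph) (h1 : M.IsMatching)
    (h2 : M.IsInduced) (h3 : ∀ v w, M.Adj v w → (v ∈ A ↔ w ∉ A)) :
    M.edgeSet.ncard ≤ simval G A :=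
  le_csSup (simval_bddAbove G A) ⟨M, h1, h2, h3, rfl⟩

lemma simval_compl (G : SimpleGraph V) (A : Set V) : simval G Aᶜ = simval G A := by
  unfold simval
  congr 1
  ext k
  refine exists_congr fun M => and_congr_right fun _ => and_congr_right fun _ =>
    and_congr_left fun _ => forall_congr' fun v => forall_congr' fun w => ?_
  simp only [Set.mem_compl_iff, not_not]
  tauto

lemma simval_le [Finite V] {G : SimpleGraph V} {A : Set V} {k : ℕ}
    (h : ∀ I : Set V, I ⊆ A → (∀ v ∈ I, ∀ w ∈ I, v ≠ w → ¬ G.Adj v w) → I.ncard ≤ k) :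
    simval G A ≤ k := by
  apply csSup_le'
  rintro m ⟨M, h1, h2, h3, rfl⟩
  have hI := h (M.verts ∩ A) Set.inter_subset_right (by
    intro v hv w hw hne hadj
    have := h2 hv.1 hw.1 hadj
    exact (h3 v w this).mp hv.2 hw.2)
  refine le_trans ?_ hI
  -- every edge of `M` has an end in `A`
  have hex : ∀ e ∈ M.edgeSet, ∃ v, v ∈ e ∧ v ∈ M.verts ∩ A := by
    intro e he
    induction e with
    | h v w =>
      rw [Subgraph.mem_edgeSet] at he
      by_cases hv : v ∈ A
      · exact ⟨v, Sym2.mem_mk_left v w, he.fst_mem, hv⟩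
      · refine ⟨w, Sym2.mem_mk_right v w, he.snd_mem, ?_⟩
        by_contra hw
        exact hv ((h3 v w he).mpr hw)
  classical
  let f : Sym2 V → V := fun e => if h : e ∈ M.edgeSet then (hex e h).choose else e.out.1
  have hf : ∀ e ∈ M.edgeSet, f e ∈ e ∧ f e ∈ M.verts ∩ A := by
    intro e he
    simp only [f, dif_pos he]
    exact (hex e he).choose_spec
  refine Set.ncard_le_ncard_of_injOn f (fun e he => (hf e he).2) ?_ (Set.toFinite _)
  intro e he e' he' hee
  obtain ⟨a1, a2⟩ := hf e he
  obtain ⟨b1, b2⟩ := hf e' he'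
  rw [← hee] at b1
  generalize f e = u at a1 b1
  obtain ⟨w, rfl⟩ := a1
  obtain ⟨w', rfl⟩ := b1
  rw [Subgraph.mem_edgeSet] at he he'
  rw [h1.eq_of_adj_left he he']

end General


/-! ### Splitting a leaf -/

section Split

variable {V : Type*}

/-- adjacency of the tree in which two new leaves are attached at `w` -/
def splitGraph {W : Type*} (T : SimpleGraph W) (w : W) : SimpleGraph (W ⊕ Bool) where
  Adj p q := match p, q with
    | Sum.inl a, Sum.inl b => T.Adj a b
    | Sum.inl a, Sum.inr _ => a = w
    | Sum.inr _, Sum.inl a => a = w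
    | Sum.inr _, Sum.inr _ => False
  symm := ⟨by
    rintro (a | a) (b | b) h
    · exact SimpleGraph.Adj.symm h
    · exact h
    · exact h
    · exact h⟩
  loopless := ⟨by
    rintro (a | a) h
    · exact T.loopless.irrefl a h
    · exact h⟩

variable {W : Type*} {T : SimpleGraph W} {w : W}

@[simp] lemma split_inl_inl {a b : W} : (splitGraph T w).Adj (Sum.inl a) (Sum.inl b) ↔ T.Adj a b :=
  Iff.rfl
@[simp] lemma split_inl_inr {a : W} {b : Bool} :
    (splitGraph T w).Adj (Sum.inl a) (Sum.inr b) ↔ a = w := Iff.rfl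
@[simp] lemma split_inr_inl {a : W} {b : Bool} :
    (splitGraph T w).Adj (Sum.inr b) (Sum.inl a) ↔ a = w := Iff.rfl
@[simp] lemma split_inr_inr {a b : Bool} :
    ¬ (splitGraph T w).Adj (Sum.inr a) (Sum.inr b) := fun h => h

/-- the retraction onto the old tree -/
def retr (w : W) : W ⊕ Bool → W
  | Sum.inl a => a
  | Sum.inr _ => w

lemma reachable_of_forall {α β : Type*} {G : SimpleGraph α} {H : SimpleGraph β} (r : α → β)
    (h : ∀ p q, G.Adj p q → H.Reachable (r p) (r q)) {p q : α} (hpq : G.Reachable p q) :
    H.Reachable (r p) (r q) := by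
  obtain ⟨c⟩ := hpq
  induction c with
  | nil => exact Reachable.refl _
  | cons hadj _ ih => exact (h _ _ hadj).trans ih

lemma split_old_edge {x y : W} (p q : W ⊕ Bool) :
    ((splitGraph T w).deleteEdges {s(Sum.inl x, Sum.inl y)}).Reachable p q ↔
      (T.deleteEdges {s(x, y)}).Reachable (retr w p) (retr w q) := by
  constructor
  · refine reachable_of_forall (retr w) ?_
    rintro (a | a) (b | b) h
    · rw [deleteEdges_adj] at h
      refine Adj.reachable ?_
      rw [deleteEdges_adj]
      refine ⟨h.1, fun hh => h.2 ?_⟩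
      simp only [retr, Set.mem_singleton_iff] at hh ⊢
      rw [Sym2.eq_iff] at hh ⊢
      rcases hh with ⟨rfl, rfl⟩ | ⟨rfl, rfl⟩
      · exact Or.inl ⟨rfl, rfl⟩
      · exact Or.inr ⟨rfl, rfl⟩
    · rw [deleteEdges_adj] at h
      have : a = w := h.1
      subst this
      exact Reachable.refl _
    · rw [deleteEdges_adj] at h
      have : b = w := h.1
      subst this
      exact Reachable.refl _
    · rw [deleteEdges_adj] at h
      exact absurd h.1 split_inr_inr
  · intro h
    have hinl : ∀ a b : W, (T.deleteEdges {s(x, y)}).Reachable a b →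
        ((splitGraph T w).deleteEdges {s(Sum.inl x, Sum.inl y)}).Reachable
          (Sum.inl a) (Sum.inl b) := by
      intro a b hab
      refine reachable_of_forall (fun a => (Sum.inl a : W ⊕ Bool)) ?_ hab
      intro a b h
      rw [deleteEdges_adj] at h
      refine Adj.reachable ?_
      rw [deleteEdges_adj]
      refine ⟨h.1, fun hh => h.2 ?_⟩
      simp only [Set.mem_singleton_iff] at hh ⊢
      rw [Sym2.eq_iff] at hh ⊢
      rcases hh with ⟨h1, h2⟩ | ⟨h1, h2⟩
      · exact Or.inl ⟨Sum.inl_injective h1, Sum.inl_injective h2⟩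
      · exact Or.inr ⟨Sum.inl_injective h1, Sum.inl_injective h2⟩
    have hinr : ∀ p : W ⊕ Bool,
        ((splitGraph T w).deleteEdges {s(Sum.inl x, Sum.inl y)}).Reachable p
          (Sum.inl (retr w p)) := by
      rintro (a | a)
      · exact Reachable.refl _
      · refine Adj.reachable ?_
        rw [deleteEdges_adj]
        refine ⟨rfl, fun hh => ?_⟩
        simp only [Set.mem_singleton_iff, Sym2.eq_iff] at hh
        rcases hh with ⟨h1, -⟩ | ⟨h1, -⟩ <;> exact absurd h1 (by simp)
    exact ((hinr p).trans (hinl _ _ h)).trans (hinr q).symm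

lemma split_new_edge_right {b : Bool} (q : W ⊕ Bool) :
    ((splitGraph T w).deleteEdges {s(Sum.inr b, Sum.inl w)}).Reachable (Sum.inr b) q ↔
      q = Sum.inr b := by
  constructor
  · rintro ⟨c⟩
    cases c with
    | nil => rfl
    | cons h c' =>
      exfalso
      rw [deleteEdges_adj] at h
      rename_i v
      rcases v with a | a
      · have : a = w := h.1
        subst this
        exact h.2 rfl
      · exact split_inr_inr h.1
  · rintro rfl
    exact Reachable.refl _

lemma split_new_edge_left (hT : T.Connected) {b : Bool} (q : W ⊕ Bool) (hq : q ≠ Sum.inr b) :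
    ((splitGraph T w).deleteEdges {s(Sum.inr b, Sum.inl w)}).Reachable (Sum.inl w) q := by
  have hinl : ∀ a c : W, ((splitGraph T w).deleteEdges {s(Sum.inr b, Sum.inl w)}).Reachable
        (Sum.inl a) (Sum.inl c) := by
    intro a c
    refine reachable_of_forall (fun a => (Sum.inl a : W ⊕ Bool)) ?_ (hT.preconnected a c)
    intro a c h
    refine Adj.reachable ?_
    rw [deleteEdges_adj]
    refine ⟨h, fun hh => ?_⟩
    simp only [Set.mem_singleton_iff, Sym2.eq_iff] at hh
    rcases hh with ⟨h1, -⟩ | ⟨-, h1⟩ <;> exact absurd h1 (by simp)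
  rcases q with a | a
  · exact hinl w a
  · refine Adj.reachable ?_
    rw [deleteEdges_adj]
    refine ⟨rfl, fun hh => ?_⟩
    simp only [Set.mem_singleton_iff, Sym2.eq_iff] at hh
    rcases hh with ⟨h1, -⟩ | ⟨-, h1⟩
    · exact absurd h1 (by simp)
    · exact hq h1

lemma split_isTree (hT : T.IsTree) (w : W) : (splitGraph T w).IsTree := by
  have : Nonempty (W ⊕ Bool) := ⟨Sum.inr true⟩
  have hinl : ∀ a c : W, (splitGraph T w).Reachable (Sum.inl a) (Sum.inl c) := by
    intro a c
    refine reachable_of_forall (fun a => (Sum.inl a : W ⊕ Bool)) ?_ (hT.1.preconnected a c)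
    intro a c h
    exact Adj.reachable h
  have hinr : ∀ p : W ⊕ Bool, (splitGraph T w).Reachable p (Sum.inl (retr w p)) := by
    rintro (a | a)
    · exact Reachable.refl _
    · exact Adj.reachable rfl
  refine ⟨⟨fun p q => ((hinr p).trans (hinl _ _)).trans (hinr q).symm⟩, ?_⟩
  rw [isAcyclic_iff_forall_adj_isBridge]
  rintro (a | a) (b | b) h
  · rw [isBridge_iff, split_old_edge]
    exact isAcyclic_iff_forall_adj_isBridge.mp hT.2 h
  · have : a = w := h
    subst this
    rw [isBridge_iff, reachable_comm, show s((Sum.inl a : W ⊕ Bool), (Sum.inr b : W ⊕ Bool)) =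
      s(Sum.inr b, Sum.inl a) from Sym2.eq_swap, split_new_edge_right]
    simp
  · have : b = w := h
    subst this
    rw [isBridge_iff, split_new_edge_right]
    simp
  · exact absurd h split_inr_inr

lemma split_neighbor_inl_ne {a : W} (ha : a ≠ w) :
    (splitGraph T w).neighborSet (Sum.inl a) = Sum.inl '' T.neighborSet a := by
  ext q
  rcases q with b | b
  · simp
  · simp [ha]

lemma split_neighbor_inl_self :
    (splitGraph T w).neighborSet (Sum.inl w) =
      Sum.inl '' T.neighborSet w ∪ {Sum.inr false, Sum.inr true} := by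
  ext q
  rcases q with b | b
  · simp
  · cases b <;> simp

lemma split_neighbor_inr {b : Bool} :
    (splitGraph T w).neighborSet (Sum.inr b) = {Sum.inl w} := by
  ext q
  rcases q with c | c
  · simp
  · simp

end Split


/-! ### Building branch decompositions -/

section Build

variable {V : Type*}

/-- every leaf of a decomposition with at least two leaves has degree exactly one -/
lemma leaf_degree (D : BranchDecomposition V) [Nontrivial V] (v : V) :
    (D.T.neighborSet (D.leaf v)).ncard = 1 := by
  have hfin := D.finite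
  have hle : (D.T.neighborSet (D.leaf v)).ncard ≤ 1 := by
    have : D.leaf v ∈ Set.range D.leaf := ⟨v, rfl⟩
    rw [D.range_leaf] at this
    exact this
  obtain ⟨u, hu⟩ := exists_ne v
  have : Nontrivial D.W := ⟨⟨D.leaf v, D.leaf u, fun h => hu (D.leaf_injective h).symm⟩⟩
  obtain ⟨a, ha⟩ := D.isTree.1.preconnected.exists_adj_of_nontrivial (D.leaf v)
  have : 0 < (D.T.neighborSet (D.leaf v)).ncard := by
    rw [Set.ncard_pos (Set.toFinite _)]
    exact ⟨a, ha⟩
  omega

/-- the leaves of the new tree -/
def splitLeafFun (D : BranchDecomposition V) (u : V) [DecidableEq V] : Option V → D.W ⊕ Bool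
  | none => Sum.inr true
  | some v => if v = u then Sum.inr false else Sum.inl (D.leaf v)

/-- replace the leaf `u` by two sibling leaves, `u` itself and the new element `none` -/
def splitLeaf (D : BranchDecomposition V) [Nontrivial V] (u : V) [DecidableEq V] :
    BranchDecomposition (Option V) where
  W := D.W ⊕ Bool
  finite := by
    have := D.finite
    exact inferInstance
  T := splitGraph D.T (D.leaf u)
  isTree := split_isTree D.isTree _
  degree_eq := by
    have hfin := D.finite
    rintro (a | b)
    · by_cases ha : a = D.leaf u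
      · right
        subst ha
        rw [split_neighbor_inl_self, Set.ncard_union_eq, Set.ncard_image_of_injective _
          Sum.inl_injective, leaf_degree D u, Set.ncard_pair (by simp)]
        · rw [Set.disjoint_left]
          rintro _ ⟨c, -, rfl⟩ h
          simp at h
      · rw [split_neighbor_inl_ne ha, Set.ncard_image_of_injective _ Sum.inl_injective]
        exact D.degree_eq a
    · left
      rw [split_neighbor_inr, Set.ncard_singleton]
  leaf := splitLeafFun D u
  leaf_injective := by
    rintro (_ | v) (_ | v') h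
    · rfl
    · exfalso
      by_cases hv : v' = u <;> simp [splitLeafFun, hv] at h
    · exfalso
      by_cases hv : v = u <;> simp [splitLeafFun, hv] at h
    · by_cases hv : v = u <;> by_cases hv' : v' = u
      · rw [hv, hv']
      · simp [splitLeafFun, hv, hv'] at h
      · simp [splitLeafFun, hv, hv'] at h
      · simp only [splitLeafFun, hv, hv', if_false, Sum.inl.injEq] at h
        rw [D.leaf_injective h]
  range_leaf := by
    have hfin := D.finite
    ext q
    rw [Set.mem_range, Set.mem_ofPred_eq]
    constructor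
    · rintro ⟨v, rfl⟩
      rcases v with _ | v
      · show ((splitGraph D.T (D.leaf u)).neighborSet (Sum.inr true)).ncard ≤ 1
        rw [split_neighbor_inr, Set.ncard_singleton]
      · by_cases hv : v = u
        · simp only [splitLeafFun, hv, if_true]
          rw [split_neighbor_inr, Set.ncard_singleton]
        · simp only [splitLeafFun, hv, if_false]
          rw [split_neighbor_inl_ne (fun h => hv (D.leaf_injective h)),
            Set.ncard_image_of_injective _ Sum.inl_injective, leaf_degree]
    · intro h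
      rcases q with a | b
      · by_cases ha : a = D.leaf u
        · exfalso
          subst ha
          rw [split_neighbor_inl_self, Set.ncard_union_eq, Set.ncard_image_of_injective _
            Sum.inl_injective, leaf_degree D u, Set.ncard_pair (by simp)] at h
          · omega
          · rw [Set.disjoint_left]
            rintro _ ⟨c, -, rfl⟩ h
            simp at h
        · rw [split_neighbor_inl_ne ha, Set.ncard_image_of_injective _ Sum.inl_injective] at h
          have : a ∈ Set.range D.leaf := by rw [D.range_leaf]; exact h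
          obtain ⟨v, rfl⟩ := this
          refine ⟨some v, ?_⟩
          have hv : v ≠ u := fun hh => ha (by rw [hh])
          simp [splitLeafFun, hv]
      · cases b
        · exact ⟨some u, by simp [splitLeafFun]⟩
        · exact ⟨none, rfl⟩

lemma splitLeaf_side (D : BranchDecomposition V) [Nontrivial V] [DecidableEq V] (u : V)
    (x y : (splitLeaf D u).W) (hxy : (splitLeaf D u).T.Adj x y) :
    (∃ x' y', D.T.Adj x' y' ∧ (splitLeaf D u).side x y =
      {v | Option.elim v u id ∈ D.side x' y'}) ∨
    (∃ v0, (splitLeaf D u).side x y = {v0}) ∨ (∃ v0, (splitLeaf D u).side x y = {v0}ᶜ) := by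
  have hleaf : ∀ v, retr (D.leaf u) (splitLeafFun D u v) = D.leaf (Option.elim v u id) := by
    rintro (_ | v)
    · rfl
    · show retr (D.leaf u) (if v = u then Sum.inr false else Sum.inl (D.leaf v)) = D.leaf v
      split_ifs with h
      · rw [h]; rfl
      · rfl
  have hinr : ∀ b : Bool, ∃ v0, splitLeafFun D u v0 = Sum.inr b := by
    intro b
    cases b
    · exact ⟨some u, by simp [splitLeafFun]⟩
    · exact ⟨none, rfl⟩
  have hiff : ∀ b v0, splitLeafFun D u v0 = Sum.inr b → ∀ v,
      (splitLeafFun D u v = Sum.inr b ↔ v = v0) := by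
    intro b v0 h v
    rw [← h]
    exact (splitLeaf D u).leaf_injective.eq_iff
  rcases x with x | b <;> rcases y with y | c
  · left
    refine ⟨x, y, hxy, ?_⟩
    ext v
    have h1 : ((splitGraph D.T (D.leaf u)).deleteEdges {s(Sum.inl x, Sum.inl y)}).Reachable
      (Sum.inl x) (splitLeafFun D u v) ↔ (D.T.deleteEdges {s(x, y)}).Reachable x
        (D.leaf (Option.elim v u id)) := by
      rw [split_old_edge, hleaf]
      rfl
    exact h1
  · right; right
    have hx : x = D.leaf u := hxy
    subst hx
    obtain ⟨v0, hv0⟩ := hinr c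
    refine ⟨v0, ?_⟩
    ext v
    have e1 : s((Sum.inl (D.leaf u) : D.W ⊕ Bool), (Sum.inr c : D.W ⊕ Bool)) =
      s(Sum.inr c, Sum.inl (D.leaf u)) := Sym2.eq_swap
    have h1 : ((splitGraph D.T (D.leaf u)).deleteEdges
        {s(Sum.inl (D.leaf u), Sum.inr c)}).Reachable
        (Sum.inl (D.leaf u)) (splitLeafFun D u v) ↔ v ∈ ({v0} : Set (Option V))ᶜ := by
      rw [e1, Set.mem_compl_iff, Set.mem_singleton_iff, ← hiff c v0 hv0 v]
      constructor
      · intro h h'
        rw [h'] at h
        have := (split_new_edge_right (T := D.T) (w := D.leaf u) (b := c) _).mp h.symm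
        exact absurd this (by simp)
      · intro h
        exact split_new_edge_left D.isTree.1 _ h
    exact h1
  · right; left
    have hy : y = D.leaf u := hxy
    subst hy
    obtain ⟨v0, hv0⟩ := hinr b
    refine ⟨v0, ?_⟩
    ext v
    have h1 : ((splitGraph D.T (D.leaf u)).deleteEdges
        {s(Sum.inr b, Sum.inl (D.leaf u))}).Reachable
        (Sum.inr b) (splitLeafFun D u v) ↔ v ∈ ({v0} : Set (Option V)) := by
      rw [split_new_edge_right, Set.mem_singleton_iff, hiff b v0 hv0 v]
    exact h1
  · exact absurd hxy split_inr_inr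

/-- transport along an equivalence -/
def transport {V' : Type*} (D : BranchDecomposition V) (e : V' ≃ V) : BranchDecomposition V' where
  W := D.W
  finite := D.finite
  T := D.T
  isTree := D.isTree
  degree_eq := D.degree_eq
  leaf := D.leaf ∘ e
  leaf_injective := D.leaf_injective.comp e.injective
  range_leaf := by rw [Set.range_comp, e.range_eq_univ, Set.image_univ, D.range_leaf]

/-- the decomposition with two leaves -/
def pairDecomp : BranchDecomposition Bool where
  W := Bool
  finite := inferInstance
  T := ⊤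
  isTree := by
    refine ⟨connected_top, ?_⟩
    exact IsAcyclic.of_card_le_two (by simp)
  degree_eq := by
    intro x
    left
    rw [Set.ncard_le_one (Set.toFinite _)]
    intro a ha b hb
    simp only [mem_neighborSet, top_adj] at ha hb
    cases x <;> cases a <;> cases b <;> simp_all
  leaf := id
  leaf_injective := Function.injective_id
  range_leaf := by
    ext x
    simp only [Set.range_id, Set.mem_univ, true_iff]
    show ((⊤ : SimpleGraph Bool).neighborSet x).ncard ≤ 1
    rw [Set.ncard_le_one (Set.toFinite _)]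
    intro a ha b hb
    simp only [mem_neighborSet, top_adj] at ha hb
    cases x <;> cases a <;> cases b <;> simp_all

lemma pairDecomp_side (x y : pairDecomp.W) (h : pairDecomp.T.Adj x y) :
    ∃ v0, pairDecomp.side x y = {v0} := by
  have key : ∀ x y : Bool, x ≠ y →
      {v : Bool | ((⊤ : SimpleGraph Bool).deleteEdges {s(x, y)}).Reachable x v} = {x} := by
    intro x y hxy
    ext v
    rw [Set.mem_ofPred_eq, Set.mem_singleton_iff]
    constructor
    · intro hv
      by_contra hne
      have hvy : v = y := by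
        cases x <;> cases y <;> cases v <;> simp_all
      subst hvy
      have := isAcyclic_iff_forall_adj_isBridge.mp pairDecomp.isTree.2 (v := x) (w := v) hxy
      exact this hv
    · rintro rfl
      exact Reachable.refl _
  exact ⟨x, key x y h.ne⟩

/-- `D` has a `p`-constant side at each edge -/
def Good (D : BranchDecomposition V) (p : V → Fin 3) : Prop :=
  ∀ x y, D.T.Adj x y →
    (∃ i, ∀ v ∈ D.side x y, p v = i) ∨ (∃ i, ∀ v ∉ D.side x y, p v = i)

lemma exists_good (m : ℕ) : ∀ (V : Type) [Finite V], Nat.card V = m + 2 →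
    ∀ p : V → Fin 3, ∃ D : BranchDecomposition V, Good D p := by
  classical
  induction m with
  | zero =>
    intro V _ hV p
    have e : V ≃ Bool := (Finite.equivFinOfCardEq hV).trans finTwoEquiv
    refine ⟨transport pairDecomp e, ?_⟩
    intro x y hxy
    left
    obtain ⟨v0, hv0⟩ := pairDecomp_side x y hxy
    refine ⟨p (e.symm v0), fun v hv => ?_⟩
    have : e v ∈ pairDecomp.side x y := hv
    rw [hv0, Set.mem_singleton_iff] at this
    rw [← this, Equiv.symm_apply_apply]
  | succ m ih =>
    intro V _ hV p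
    by_cases hp : ∃ u v, u ≠ v ∧ p u = p v
    · obtain ⟨u, v, huv, hpuv⟩ := hp
      let V' := {x : V // x ≠ v}
      have hcardV' : Nat.card V' = m + 2 := by
        have := Nat.card_congr (Equiv.optionSubtypeNe v)
        rw [Finite.card_option] at this
        show Nat.card {x : V // x ≠ v} = m + 2
        omega
      obtain ⟨D, hD⟩ := ih V' hcardV' (fun x => p x.1)
      have hnt : Nontrivial V' := Finite.one_lt_card_iff_nontrivial.mp (by omega)
      let u' : V' := ⟨u, huv⟩
      let e : V ≃ Option V' := (Equiv.optionSubtypeNe v).symm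
      refine ⟨transport (splitLeaf D u') e, ?_⟩
      have hpe : ∀ x, p x = p (Option.elim (e x) u' id).1 := by
        intro x
        by_cases hx : x = v
        · have he : e x = none := by rw [hx]; exact Equiv.optionSubtypeNe_symm_self v
          rw [he, hx]
          exact hpuv.symm
        · have he : e x = some ⟨x, hx⟩ := Equiv.optionSubtypeNe_symm_of_ne hx
          rw [he]
          rfl
      intro x y hxy
      rcases splitLeaf_side D u' x y hxy with ⟨x', y', hxy', hs⟩ | ⟨v0, hs⟩ | ⟨v0, hs⟩
      · rcases hD x' y' hxy' with ⟨i, hi⟩ | ⟨i, hi⟩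
        · left
          refine ⟨i, fun z hz => ?_⟩
          have hz' : e z ∈ (splitLeaf D u').side x y := hz
          rw [hs] at hz'
          rw [hpe z]
          exact hi _ hz'
        · right
          refine ⟨i, fun z hz => ?_⟩
          have hz' : e z ∉ (splitLeaf D u').side x y := hz
          rw [hs] at hz'
          rw [hpe z]
          exact hi _ hz'
      · left
        refine ⟨p (e.symm v0), fun z hz => ?_⟩
        have hz' : e z ∈ (splitLeaf D u').side x y := hz
        rw [hs, Set.mem_singleton_iff] at hz'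
        rw [← hz', Equiv.symm_apply_apply]
      · right
        refine ⟨p (e.symm v0), fun z hz => ?_⟩
        have hz' : e z ∉ (splitLeaf D u').side x y := hz
        rw [hs, Set.notMem_compl_iff, Set.mem_singleton_iff] at hz'
        rw [← hz', Equiv.symm_apply_apply]
    · -- `p` is injective, three elements
      push Not at hp
      have hinj : Function.Injective p := by
        intro a b hab
        by_contra hne
        exact hp a b hne hab
      have hle : Nat.card V ≤ 3 := by
        have := Nat.card_le_card_of_injective p hinj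
        simpa using this
      have hm : m = 0 := by omega
      subst hm
      have hcard3 : Nat.card V = Nat.card (Option Bool) := by
        rw [hV, Finite.card_option]; simp
      obtain ⟨e⟩ : Nonempty (V ≃ Option Bool) := Finite.card_eq.mp hcard3
      refine ⟨transport (splitLeaf pairDecomp true) e, ?_⟩
      intro x y hxy
      rcases splitLeaf_side pairDecomp true x y hxy with ⟨x', y', hxy', hs⟩ | ⟨v0, hs⟩ | ⟨v0, hs⟩
      · obtain ⟨w, hw⟩ := pairDecomp_side x' y' hxy'
        cases w
        · left
          refine ⟨p (e.symm (some false)), fun z hz => ?_⟩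
          have hz' : e z ∈ (splitLeaf pairDecomp true).side x y := hz
          rw [hs, hw, Set.mem_ofPred_eq, Set.mem_singleton_iff] at hz'
          have : e z = some false := by
            generalize e z = q at hz'
            rcases q with _ | q
            · simp at hz'
            · simp at hz'; rw [hz']
          rw [← this, Equiv.symm_apply_apply]
        · right
          refine ⟨p (e.symm (some false)), fun z hz => ?_⟩
          have hz' : e z ∉ (splitLeaf pairDecomp true).side x y := hz
          rw [hs, hw, Set.mem_ofPred_eq, Set.mem_singleton_iff] at hz'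
          have : e z = some false := by
            generalize e z = q at hz'
            rcases q with _ | q
            · simp at hz'
            · simp at hz'; rw [hz']
          rw [← this, Equiv.symm_apply_apply]
      · left
        refine ⟨p (e.symm v0), fun z hz => ?_⟩
        have hz' : e z ∈ (splitLeaf pairDecomp true).side x y := hz
        rw [hs, Set.mem_singleton_iff] at hz'
        rw [← hz', Equiv.symm_apply_apply]
      · right
        refine ⟨p (e.symm v0), fun z hz => ?_⟩
        have hz' : e z ∉ (splitLeaf pairDecomp true).side x y := hz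
        rw [hs, Set.notMem_compl_iff, Set.mem_singleton_iff] at hz'
        rw [← hz', Equiv.symm_apply_apply]

end Build


/-! ### Line graphs of complete graphs -/

section Complete

open Pool.Agent.helper17.Cherry Pool.Agent.helper17.TreeCut

lemma indep_transversal {n lo hi : ℕ} (I : Set (⊤ : SimpleGraph (Fin n)).edgeSet)
    (hI : ∀ v ∈ I, ∀ w ∈ I, v ≠ w → ¬ (⊤ : SimpleGraph (Fin n)).lineGraph.Adj v w)
    (h : ∀ e ∈ I, ∃ v ∈ e.1, lo ≤ v.val ∧ v.val < hi) : I.ncard ≤ hi - lo := by
  classical
  let f : (⊤ : SimpleGraph (Fin n)).edgeSet → ℕ := fun e =>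
    if he : ∃ v ∈ e.1, lo ≤ v.val ∧ v.val < hi then he.choose.val else 0
  have hf : ∀ e ∈ I, ∃ v ∈ e.1, f e = v.val ∧ lo ≤ v.val ∧ v.val < hi := by
    intro e he
    have h1 := h e he
    refine ⟨h1.choose, h1.choose_spec.1, ?_, h1.choose_spec.2⟩
    simp only [f, dif_pos h1]
  have h1 : I.ncard ≤ (Finset.Ico lo hi : Set ℕ).ncard := by
    refine Set.ncard_le_ncard_of_injOn f ?_ ?_ (Finset.finite_toSet _)
    · intro e he
      obtain ⟨v, -, h2, h3⟩ := hf e he
      rw [h2, Finset.coe_Ico]
      exact h3
    · intro e he e' he' hee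
      obtain ⟨v, hv, h2, -⟩ := hf e he
      obtain ⟨v', hv', h2', -⟩ := hf e' he'
      have hvv : v = v' := Fin.ext (by rw [← h2, ← h2', hee])
      by_contra hne
      refine hI e he e' he' hne ?_
      rw [lineGraph_adj_iff_exists]
      exact ⟨hne, v, hv, hvv ▸ hv'⟩
  rwa [Set.ncard_coe_finset, Nat.card_Ico] at h1

lemma indep_inside {n k : ℕ} (I : Set (⊤ : SimpleGraph (Fin n)).edgeSet)
    (hI : ∀ v ∈ I, ∀ w ∈ I, v ≠ w → ¬ (⊤ : SimpleGraph (Fin n)).lineGraph.Adj v w)
    (h : ∀ e ∈ I, ∀ v ∈ e.1, v.val < 2 * k + 1) : I.ncard ≤ k := by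
  classical
  let J : Finset (⊤ : SimpleGraph (Fin n)).edgeSet := I.toFinset
  have hJ : I.ncard = J.card := by rw [Set.ncard_eq_toFinset_card']
  have hJI : ∀ e ∈ J, e ∈ I := fun e he => Set.mem_toFinset.mp he
  let U : Finset (Fin n) := J.biUnion (fun e => e.1.toFinset)
  have hU : U.card = 2 * J.card := by
    rw [Finset.card_biUnion]
    · rw [Finset.sum_congr rfl (fun e _ => Sym2.card_toFinset_of_not_isDiag e.1
        (SimpleGraph.not_isDiag_of_mem_edgeSet _ e.2))]
      simp [mul_comm]
    · intro e he e' he' hne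
      rw [Function.onFun, Finset.disjoint_left]
      intro v hv hv'
      refine hI e (hJI e he) e' (hJI e' he') hne ?_
      rw [lineGraph_adj_iff_exists]
      exact ⟨hne, v, Sym2.mem_toFinset.mp hv, Sym2.mem_toFinset.mp hv'⟩
  have hU2 : U.card ≤ (Finset.range (2 * k + 1)).card := by
    refine Finset.card_le_card_of_injOn (fun v => v.val) ?_ ?_
    · intro v hv
      obtain ⟨e, he, hve⟩ := Finset.mem_biUnion.mp hv
      exact Finset.mem_coe.mpr (Finset.mem_range.mpr (h e (hJI e he) v (Sym2.mem_toFinset.mp hve)))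
    · intro v _ w _ hvw
      exact Fin.ext hvw
  rw [Finset.card_range] at hU2
  omega

open Classical in
/-- the three parts of the edge set of `K_n` used in the upper bound -/
noncomputable def part (n k : ℕ) (e : (⊤ : SimpleGraph (Fin n)).edgeSet) : Fin 3 :=
  if ∀ v ∈ e.1, v.val < 2 * k + 1 then 0
  else if ∃ v ∈ e.1, 2 * k + 1 ≤ v.val ∧ v.val < 3 * k + 1 then 1 else 2

lemma indep_part {n k : ℕ} (hn : n ≤ 4 * k + 1) (i : Fin 3)
    (I : Set (⊤ : SimpleGraph (Fin n)).edgeSet)
    (hI : ∀ v ∈ I, ∀ w ∈ I, v ≠ w → ¬ (⊤ : SimpleGraph (Fin n)).lineGraph.Adj v w)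
    (h : ∀ e ∈ I, part n k e = i) : I.ncard ≤ k := by
  classical
  fin_cases i
  · refine indep_inside I hI fun e he => ?_
    have h1 := h e he
    simp only [part] at h1
    split_ifs at h1 with h2 h3
    · exact h2
    · exact absurd h1 (by decide)
    · exact absurd h1 (by decide)
  · have := indep_transversal (lo := 2 * k + 1) (hi := 3 * k + 1) I hI fun e he => by
      have h1 := h e he
      simp only [part] at h1
      split_ifs at h1 with h2 h3
      · exact absurd h1 (by decide)
      · exact h3
      · exact absurd h1 (by decide)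
    omega
  · have := indep_transversal (lo := 3 * k + 1) (hi := 4 * k + 1) I hI fun e he => by
      have h1 := h e he
      simp only [part] at h1
      split_ifs at h1 with h2 h3
      · exact absurd h1 (by decide)
      · exact absurd h1 (by decide)
      · push Not at h2 h3
        obtain ⟨v, hv, hv2⟩ := h2
        exact ⟨v, hv, h3 v hv hv2, by omega⟩
    omega

lemma card_edges_ge {n : ℕ} (hn : 3 ≤ n) : 3 ≤ Nat.card (⊤ : SimpleGraph (Fin n)).edgeSet := by
  let a : Fin n := ⟨0, by omega⟩
  let b : Fin n := ⟨1, by omega⟩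
  let c : Fin n := ⟨2, by omega⟩
  have hab : a ≠ b := by simp [a, b]
  have hac : a ≠ c := by simp [a, c]
  have hbc : b ≠ c := by simp [b, c]
  have hba := hab.symm
  have hca := hac.symm
  have hcb := hbc.symm
  let f : Fin 3 → (⊤ : SimpleGraph (Fin n)).edgeSet := fun i =>
    match i with
    | 0 => ⟨s(a, b), hab⟩
    | 1 => ⟨s(a, c), hac⟩
    | 2 => ⟨s(b, c), hbc⟩
  have hf : Function.Injective f := by
    intro i j hij
    have h2 := congrArg Subtype.val hij
    fin_cases i <;> fin_cases j <;> simp_all [f]
  have := Nat.card_le_card_of_injective f hf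
  simpa using this

lemma upper {n : ℕ} (hn : 3 ≤ n) {k : ℕ} (hk : n ≤ 4 * k + 1) :
    ∃ D : BranchDecomposition (⊤ : SimpleGraph (Fin n)).edgeSet,
      D.width (⊤ : SimpleGraph (Fin n)).lineGraph ≤ k := by
  have h3 := card_edges_ge hn
  obtain ⟨D, hD⟩ := exists_good (Nat.card (⊤ : SimpleGraph (Fin n)).edgeSet - 2)
    (⊤ : SimpleGraph (Fin n)).edgeSet (by omega) (part n k)
  refine ⟨D, csSup_le' ?_⟩
  rintro m ⟨x, y, hxy, rfl⟩
  rcases hD x y hxy with ⟨i, hi⟩ | ⟨i, hi⟩
  · refine simval_le fun I hIA hI => indep_part hk i I hI fun e he => hi e (hIA he)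
  · rw [← simval_compl]
    refine simval_le fun I hIA hI => indep_part hk i I hI fun e he => hi e (hIA he)

/-- disjoint bichromatic cherries give an induced crossing matching in the line graph. -/
lemma simval_of_cherries {n t : ℕ} (A : Set (Sym2 (Fin n)))
    (B : Set (⊤ : SimpleGraph (Fin n)).edgeSet) (hAB : ∀ e, e ∈ B ↔ e.1 ∈ A)
    (hC : HasC A Finset.univ t) : t ≤ simval (⊤ : SimpleGraph (Fin n)).lineGraph B := by
  classical
  obtain ⟨C, hC, hcard⟩ := hC
  have shared : ∀ c ∈ C, ∀ d ∈ C, ∀ v : Fin n, (v = c.1 ∨ v = c.2.1 ∨ v = c.2.2) →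
      (v = d.1 ∨ v = d.2.1 ∨ v = d.2.2) → c = d := by
    intro c hc d hd v h1 h2
    by_contra hne
    obtain ⟨a1, a2, a3, a4, a5, a6, a7, a8, a9⟩ := hC.2 c hc d hd hne
    rcases h1 with rfl | rfl | rfl <;> rcases h2 with h | h | h <;> contradiction
  have hne12 : ∀ c ∈ C, ∀ d ∈ C, s(c.1, c.2.1) ≠ s(d.2.1, d.2.2) := by
    intro c hc d hd h
    have h1 := (hC.1 c hc).2.2.2.2.2.2.1
    have h2 := (hC.1 d hd).2.2.2.2.2.2.2
    rw [h] at h1
    exact h2 h1
  let E : (⊤ : SimpleGraph (Fin n)).edgeSet → (⊤ : SimpleGraph (Fin n)).edgeSet → Prop :=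
    fun e f => ∃ c ∈ C, (e.1 = s(c.1, c.2.1) ∧ f.1 = s(c.2.1, c.2.2)) ∨
      (e.1 = s(c.2.1, c.2.2) ∧ f.1 = s(c.1, c.2.1))
  have hEadj : ∀ e f, E e f → (⊤ : SimpleGraph (Fin n)).lineGraph.Adj e f := by
    rintro e f ⟨c, hc, ⟨h1, h2⟩ | ⟨h1, h2⟩⟩
    · rw [lineGraph_adj_iff_exists]
      refine ⟨fun h => hne12 c hc c hc (by rw [← h1, ← h2, h]), c.2.1, ?_, ?_⟩
      · rw [h1]; exact Sym2.mem_mk_right _ _
      · rw [h2]; exact Sym2.mem_mk_left _ _
    · rw [lineGraph_adj_iff_exists]
      refine ⟨fun h => hne12 c hc c hc (by rw [← h1, ← h2, h]), c.2.1, ?_, ?_⟩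
      · rw [h1]; exact Sym2.mem_mk_left _ _
      · rw [h2]; exact Sym2.mem_mk_right _ _
  let M : (⊤ : SimpleGraph (Fin n)).lineGraph.Subgraph :=
    { verts := {e | ∃ f, E e f}
      Adj := E
      adj_sub := fun {e f} h => hEadj e f h
      edge_vert := fun {e f} h => ⟨f, h⟩
      symm := ⟨by
        rintro e f ⟨c, hc, h | h⟩
        · exact ⟨c, hc, Or.inr ⟨h.2, h.1⟩⟩
        · exact ⟨c, hc, Or.inl ⟨h.2, h.1⟩⟩⟩ }
  -- the cherry of a vertex of `M`
  have hcherry : ∀ e ∈ M.verts, ∃ c ∈ C, e.1 = s(c.1, c.2.1) ∨ e.1 = s(c.2.1, c.2.2) := by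
    rintro e ⟨f, c, hc, h | h⟩
    · exact ⟨c, hc, Or.inl h.1⟩
    · exact ⟨c, hc, Or.inr h.1⟩
  have hmem : ∀ c : Fin n × Fin n × Fin n, ∀ e : (⊤ : SimpleGraph (Fin n)).edgeSet,
      (e.1 = s(c.1, c.2.1) ∨ e.1 = s(c.2.1, c.2.2)) → ∀ v ∈ e.1,
      (v = c.1 ∨ v = c.2.1 ∨ v = c.2.2) := by
    rintro c e (h | h) v hv
    · rw [h, Sym2.mem_iff] at hv
      tauto
    · rw [h, Sym2.mem_iff] at hv
      tauto
  have hunique : ∀ c ∈ C, ∀ d ∈ C, ∀ e : (⊤ : SimpleGraph (Fin n)).edgeSet,
      (e.1 = s(c.1, c.2.1) ∨ e.1 = s(c.2.1, c.2.2)) →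
      (e.1 = s(d.1, d.2.1) ∨ e.1 = s(d.2.1, d.2.2)) → c = d := by
    intro c hc d hd e h1 h2
    obtain ⟨e, he⟩ := e
    induction e with
    | h v w =>
      exact shared c hc d hd v (hmem c _ h1 v (Sym2.mem_mk_left v w))
        (hmem d _ h2 v (Sym2.mem_mk_left v w))
  have hM1 : M.IsMatching := by
    rintro e ⟨f, hf⟩
    refine ⟨f, hf, fun g hg => ?_⟩
    obtain ⟨c, hc, h⟩ := hf
    obtain ⟨d, hd, h'⟩ := hg
    have hcd : c = d := hunique c hc d hd e (by tauto) (by tauto)
    subst hcd
    apply Subtype.ext
    rcases h with h | h <;> rcases h' with h' | h'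
    · rw [h'.2, h.2]
    · exact absurd (h.1.symm.trans h'.1) (hne12 c hc c hc)
    · exact absurd (h'.1.symm.trans h.1) (hne12 c hc c hc)
    · rw [h'.2, h.2]
  have hM2 : M.IsInduced := by
    intro e he f hf hadj
    obtain ⟨c, hc, h⟩ := hcherry e he
    obtain ⟨d, hd, h'⟩ := hcherry f hf
    rw [lineGraph_adj_iff_exists] at hadj
    obtain ⟨hne, v, hve, hvf⟩ := hadj
    have hcd : c = d := shared c hc d hd v (hmem c e h v hve) (hmem d f h' v hvf)
    subst hcd
    refine ⟨c, hc, ?_⟩
    rcases h with h | h <;> rcases h' with h' | h'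
    · exact absurd (Subtype.ext (h.trans h'.symm)) hne
    · exact Or.inl ⟨h, h'⟩
    · exact Or.inr ⟨h, h'⟩
    · exact absurd (Subtype.ext (h.trans h'.symm)) hne
  have hM3 : ∀ v w, M.Adj v w → (v ∈ B ↔ w ∉ B) := by
    rintro e f ⟨c, hc, h | h⟩
    · have h1 := (hC.1 c hc).2.2.2.2.2.2.1
      have h2 := (hC.1 c hc).2.2.2.2.2.2.2
      rw [hAB, hAB, h.1, h.2]
      exact ⟨fun _ => h2, fun _ => h1⟩
    · have h1 := (hC.1 c hc).2.2.2.2.2.2.1
      have h2 := (hC.1 c hc).2.2.2.2.2.2.2
      rw [hAB, hAB, h.1, h.2]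
      exact ⟨fun h => absurd h h2, fun h => absurd h1 h⟩
  refine le_trans ?_ (le_simval M hM1 hM2 hM3)
  -- count the edges
  let g : {c // c ∈ C} → Sym2 (⊤ : SimpleGraph (Fin n)).edgeSet := fun c =>
    s(⟨s(c.1.1, c.1.2.1), (hC.1 c.1 c.2).2.2.2.1⟩, ⟨s(c.1.2.1, c.1.2.2), (hC.1 c.1 c.2).2.2.2.2.2.1⟩)
  have hg : Function.Injective g := by
    intro c d hcd
    simp only [g] at hcd
    rw [Sym2.eq_iff] at hcd
    apply Subtype.ext
    rcases hcd with ⟨h1, h2⟩ | ⟨h1, h2⟩
    · have h1' : s(c.1.1, c.1.2.1) = s(d.1.1, d.1.2.1) := congrArg Subtype.val h1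
      refine shared c.1 c.2 d.1 d.2 c.1.1 (Or.inl rfl) ?_
      rw [Sym2.eq_iff] at h1'
      rcases h1' with ⟨h, -⟩ | ⟨h, -⟩
      · exact Or.inl h
      · exact Or.inr (Or.inl h)
    · have h1' : s(c.1.1, c.1.2.1) = s(d.1.2.1, d.1.2.2) := congrArg Subtype.val h1
      exact absurd h1' (hne12 c.1 c.2 d.1 d.2)
  have hrange : Set.range g ⊆ M.edgeSet := by
    rintro _ ⟨c, rfl⟩
    exact ⟨c.1, c.2, Or.inl ⟨rfl, rfl⟩⟩
  calc t = (Set.range g).ncard := by
        rw [← Set.image_univ, Set.ncard_image_of_injective _ hg, Set.ncard_univ, Nat.card_eq_fintype_card,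
          Fintype.card_coe, hcard]
    _ ≤ M.edgeSet.ncard := Set.ncard_le_ncard hrange (Set.toFinite _)

lemma HasM.mono_set {V : Type*} {A B : Set (Sym2 V)} {S : Finset V} {t : ℕ} (h : HasM A S t)
    (hAB : ∀ x y : V, x ≠ y → s(x, y) ∈ A → s(x, y) ∈ B) : HasM B S t := by
  obtain ⟨R, hR, hc⟩ := h
  exact ⟨R, ⟨fun p hp => ⟨(hR.1 p hp).1, (hR.1 p hp).2.1, (hR.1 p hp).2.2.1,
    hAB _ _ (hR.1 p hp).2.2.1 (hR.1 p hp).2.2.2⟩, hR.2⟩, hc⟩

lemma lower {n t : ℕ} (ht : 1 ≤ t) (hn : 4 * t ≤ n + 2) (hn3 : 3 ≤ n)
    (D : BranchDecomposition (⊤ : SimpleGraph (Fin n)).edgeSet) :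
    t ≤ D.width (⊤ : SimpleGraph (Fin n)).lineGraph := by
  classical
  have hfin := D.finite
  have h3t : 3 * t ≤ n := by omega
  -- pairs whose leaf lies in `S`
  let EE : Set D.W → Set (Sym2 (Fin n)) := fun S =>
    {e | ∃ h : e ∈ (⊤ : SimpleGraph (Fin n)).edgeSet, D.leaf ⟨e, h⟩ ∈ S}
  by_contra hcon
  push Not at hcon
  have hbdd : BddAbove {k | ∃ x y, D.T.Adj x y ∧
      simval (⊤ : SimpleGraph (Fin n)).lineGraph (D.side x y) = k} := by
    have : {k | ∃ x y, D.T.Adj x y ∧
      simval (⊤ : SimpleGraph (Fin n)).lineGraph (D.side x y) = k} ⊆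
      Set.range (fun p : D.W × D.W =>
        simval (⊤ : SimpleGraph (Fin n)).lineGraph (D.side p.1 p.2)) := by
      rintro k ⟨x, y, -, rfl⟩
      exact ⟨(x, y), rfl⟩
    exact (Set.finite_range _).subset this |>.bddAbove
  have hle : ∀ x y, D.T.Adj x y →
      simval (⊤ : SimpleGraph (Fin n)).lineGraph (D.side x y) < t := by
    intro x y hxy
    exact lt_of_le_of_lt (le_csSup hbdd ⟨x, y, hxy, rfl⟩) hcon
  let big : Set D.W → Prop := fun S => HasM (EE S) Finset.univ t
  have hnotboth : ∀ x y, D.T.Adj x y → ¬ (big (comp D.T x y) ∧ big (comp D.T y x)) := by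
    rintro x y hxy ⟨h1, h2⟩
    have h2' : HasM (EE (comp D.T x y))ᶜ Finset.univ t := by
      refine HasM.mono_set h2 ?_
      rintro u v huv ⟨h, hh⟩ ⟨h', hh'⟩
      exact disjoint_comp D.isTree.2 hxy _ hh' hh
    have hC := cherry_theorem t _ Finset.univ (by simpa using h3t) h1 h2'
    have := simval_of_cherries (EE (comp D.T x y)) (D.side x y) (by
      intro e
      constructor
      · intro he
        exact ⟨e.2, he⟩
      · rintro ⟨h, hh⟩
        exact hh) hC
    exact absurd (hle x y hxy) (by omega)
  -- an edge of the tree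
  have hcard := card_edges_ge hn3
  have hnt : Nontrivial (⊤ : SimpleGraph (Fin n)).edgeSet :=
    Finite.one_lt_card_iff_nontrivial.mp (by omega)
  obtain ⟨e0, e1, h01⟩ := exists_pair_ne (⊤ : SimpleGraph (Fin n)).edgeSet
  have hl01 : D.leaf e1 ≠ D.leaf e0 := fun h => h01 (D.leaf_injective h).symm
  obtain ⟨a, hya, ha⟩ := exists_neighbor D.isTree hl01
  rcases Nat.lt_or_ge t 2 with ht1 | ht2
  · -- `t = 1`
    have ht1 : t = 1 := by omega
    subst ht1
    have one : ∀ (S : Set D.W) (e : (⊤ : SimpleGraph (Fin n)).edgeSet), D.leaf e ∈ S → big S := by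
      intro S e he
      obtain ⟨e, hE⟩ := e
      induction e with
      | h u v =>
        refine ⟨{(u, v)}, ⟨?_, ?_⟩, Finset.card_singleton _⟩
        · intro p hp
          rw [Finset.mem_singleton] at hp
          subst hp
          exact ⟨Finset.mem_univ _, Finset.mem_univ _, (mem_edgeSet _).mp hE |>.ne, hE, he⟩
        · intro p hp q hq hpq
          rw [Finset.mem_singleton] at hp hq
          exact absurd (hp.trans hq.symm) hpq
    exact hnotboth _ _ hya ⟨one _ e0 (self_mem_comp _ _ _), one _ e1 ha⟩
  · -- `t ≥ 2`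
    have hex : ∃ x y, D.T.Adj x y ∧ big (comp D.T y x) := by
      rcases two_colour (EE (comp D.T (D.leaf e0) a)) t Finset.univ (by simp; omega) with h | h
      · exact ⟨a, D.leaf e0, hya.symm, h⟩
      · refine ⟨D.leaf e0, a, hya, HasM.mono_set h ?_⟩
        intro u v huv hmem
        have hE : s(u, v) ∈ (⊤ : SimpleGraph (Fin n)).edgeSet := huv
        refine ⟨hE, ?_⟩
        rcases comp_union D.isTree hya (D.leaf ⟨s(u, v), hE⟩) with h1 | h1
        · exact absurd ⟨hE, h1⟩ hmem
        · exact h1
    obtain ⟨x, y, hxy, hbig, hsmall⟩ := exists_center D.isTree big hex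
    have hsmall' : ∀ a, D.T.Adj y a → ¬ big (comp D.T a y) := by
      intro a hya
      by_cases hax : a = x
      · subst hax
        exact fun h => hnotboth _ _ hxy ⟨h, hbig⟩
      · exact hsmall a hya hax
    rcases D.degree_eq y with hdeg | hdeg
    · -- `y` is a leaf: impossible
      have honly : ∀ a, D.T.Adj y a → a = x := by
        intro a ha
        exact (Set.ncard_le_one (Set.toFinite _)).mp hdeg a ha x hxy.symm
      obtain ⟨R, hR, hRc⟩ := hbig
      obtain ⟨p, hp, q, hq, hpq⟩ := Finset.one_lt_card.mp (show 1 < R.card by omega)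
      obtain ⟨-, -, hp3, hpE, hp4⟩ := hR.1 p hp
      obtain ⟨-, -, hq3, hqE, hq4⟩ := hR.1 q hq
      have hpq' := hR.2 p hp q hq hpq
      have hnotin : ∀ w, w ∈ comp D.T y x → w = y := by
        intro w hw
        by_contra hne
        obtain ⟨b, hb, hwb⟩ := exists_neighbor D.isTree hne
        rw [honly b hb] at hwb
        exact disjoint_comp D.isTree.2 hxy _ hwb hw
      have h1 := hnotin _ hp4
      have h2 := hnotin _ hq4
      have h3 := D.leaf_injective (h1.trans h2.symm)
      have h4 := congrArg Subtype.val h3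
      simp only [Sym2.eq_iff] at h4
      rcases h4 with ⟨h4, -⟩ | ⟨h4, -⟩
      · exact hpq'.1 h4
      · exact hpq'.2.1 h4
    · obtain ⟨a, b, c, -, -, -, habc⟩ := Set.ncard_eq_three.mp hdeg
      have hynot : ∀ e, D.leaf e ≠ y := by
        intro e he
        have : D.leaf e ∈ Set.range D.leaf := ⟨e, rfl⟩
        rw [D.range_leaf, he] at this
        have h' : (D.T.neighborSet y).ncard ≤ 1 := this
        omega
      have hadj : ∀ d, D.T.Adj y d ↔ d = a ∨ d = b ∨ d = c := by
        intro d
        rw [← mem_neighborSet, habc]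
        simp
      let col : Sym2 (Fin n) → Fin 3 := fun e =>
        if e ∈ EE (comp D.T a y) then 0 else if e ∈ EE (comp D.T b y) then 1 else 2
      obtain ⟨i, hi⟩ := three_colour col t Finset.univ (by simpa using hn)
      have hcases : ∀ u v : Fin n, u ≠ v → s(u, v) ∈ EE (comp D.T a y) ∨
          s(u, v) ∈ EE (comp D.T b y) ∨ s(u, v) ∈ EE (comp D.T c y) := by
        intro u v huv
        have hE : s(u, v) ∈ (⊤ : SimpleGraph (Fin n)).edgeSet := huv
        obtain ⟨d, hd, hd'⟩ := exists_neighbor D.isTree (hynot ⟨s(u, v), hE⟩)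
        rcases (hadj d).mp hd with rfl | rfl | rfl
        · exact Or.inl ⟨hE, hd'⟩
        · exact Or.inr (Or.inl ⟨hE, hd'⟩)
        · exact Or.inr (Or.inr ⟨hE, hd'⟩)
      fin_cases i
      · refine hsmall' a ((hadj a).mpr (Or.inl rfl)) (HasM.mono_set hi ?_)
        intro u v huv hmem
        have hmem' : col s(u, v) = 0 := hmem
        simp only [col] at hmem'
        split_ifs at hmem' with h1 h2
        · exact h1
        · exact absurd hmem' (by decide)
        · exact absurd hmem' (by decide)
      · refine hsmall' b ((hadj b).mpr (Or.inr (Or.inl rfl))) (HasM.mono_set hi ?_)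
        intro u v huv hmem
        have hmem' : col s(u, v) = 1 := hmem
        simp only [col] at hmem'
        split_ifs at hmem' with h1 h2
        · exact absurd hmem' (by decide)
        · exact h2
        · exact absurd hmem' (by decide)
      · refine hsmall' c ((hadj c).mpr (Or.inr (Or.inr rfl))) (HasM.mono_set hi ?_)
        intro u v huv hmem
        have hmem' : col s(u, v) = 2 := hmem
        simp only [col] at hmem'
        split_ifs at hmem' with h1 h2
        · exact absurd hmem' (by decide)
        · exact absurd hmem' (by decide)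
        · rcases hcases u v huv with h | h | h
          · exact absurd h h1
          · exact absurd h h2
          · exact h

end Complete

/-- **Main theorem.** The sim-width of the line graph of the complete graph `K_n` is `0` for
`n ≤ 2` and `⌊(n + 2) / 4⌋ = ⌈(n - 1) / 4⌉` for every `n ≥ 3`. -/
theorem result (n : ℕ) :
    simWidth (⊤ : SimpleGraph (Fin n)).lineGraph = if n ≤ 2 then 0 else (n + 2) / 4 := by
  split_ifs with hn
  · -- at most one edge
    have hsub : Subsingleton (⊤ : SimpleGraph (Fin n)).edgeSet := by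
      refine ⟨fun e f => ?_⟩
      obtain ⟨e, he⟩ := e
      obtain ⟨f, hf⟩ := f
      apply Subtype.ext
      show e = f
      induction e with
      | h u v =>
        induction f with
        | h u' v' =>
          have h1 : u ≠ v := he
          have h2 : u' ≠ v' := hf
          rw [Sym2.eq_iff]
          have := u.2
          have := v.2
          have := u'.2
          have := v'.2
          rw [Ne, Fin.ext_iff] at h1 h2
          rw [Fin.ext_iff, Fin.ext_iff, Fin.ext_iff, Fin.ext_iff]
          omega
    have hsv : ∀ A, simval (⊤ : SimpleGraph (Fin n)).lineGraph A = 0 := by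
      intro A
      apply Nat.le_zero.mp
      apply csSup_le'
      rintro k ⟨M, -, -, -, rfl⟩
      have : M.edgeSet = ∅ := by
        ext e
        induction e with
        | h u v =>
          simp only [Subgraph.mem_edgeSet, Set.mem_empty_iff_false, iff_false]
          intro h
          exact h.ne (Subsingleton.elim _ _)
      rw [this, Set.ncard_empty]
    have hall : ∀ k ∈ {k | ∃ D : BranchDecomposition (⊤ : SimpleGraph (Fin n)).edgeSet,
        D.width (⊤ : SimpleGraph (Fin n)).lineGraph = k}, k = 0 := by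
      rintro k ⟨D, rfl⟩
      apply Nat.le_zero.mp
      apply csSup_le'
      rintro k ⟨x, y, -, rfl⟩
      rw [hsv]
    unfold simWidth
    rcases Set.eq_empty_or_nonempty {k | ∃ D : BranchDecomposition
        (⊤ : SimpleGraph (Fin n)).edgeSet,
        D.width (⊤ : SimpleGraph (Fin n)).lineGraph = k} with h | h
    · rw [h, Nat.sInf_empty]
    · exact hall _ (Nat.sInf_mem h)
  · apply le_antisymm
    · obtain ⟨D, hD⟩ := upper (n := n) (by omega) (k := (n + 2) / 4) (by omega)
      exact le_trans (Nat.sInf_le ⟨D, rfl⟩) hD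
    · obtain ⟨D, hD⟩ := upper (n := n) (by omega) (k := (n + 2) / 4) (by omega)
      have hne : {k | ∃ D : BranchDecomposition (⊤ : SimpleGraph (Fin n)).edgeSet,
        D.width (⊤ : SimpleGraph (Fin n)).lineGraph = k}.Nonempty := ⟨_, D, rfl⟩
      obtain ⟨D', hD'⟩ := Nat.sInf_mem hne
      show (n + 2) / 4 ≤ simWidth _
      unfold simWidth
      rw [← hD']
      exact lower (by omega) (by omega) (by omega) D'

end Pool.Agent.Results.MP_598d44_co.SimWidthExact
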